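import Mathlib
import Pool.Agent.Y755.MK.Stm

/-!
# Project MK, FIN: final assembly (problem 65c995, S19375)
-/

set_option autoImplicit false
set_option linter.unusedVariables false

open MeasureTheory ProbabilityTheory

namespace Pool.Agent.Y418.MK.Fin

open Pool.Agent.Y755.MK

/-- points at small distance have the same colour -/
theorem same_colour {S : Type} [MetricSpace S] [CompactSpace S] (f : S → C)
    (hop : ∀ c : C, IsOpen {x : S | f x = c}) :
    ∃ ε : ℝ, 0 < ε ∧ ∀ x x' : S, dist x x' < ε → f x = f x' := by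
  obtain ⟨δ, hδ, h⟩ := lebesgue_number_lemma_of_metric (s := (Set.univ : Set S))
    (c := fun c : C => {x : S | f x = c}) isCompact_univ hop
    (fun x _ => Set.mem_iUnion.2 ⟨f x, rfl⟩)
  refine ⟨δ, hδ, fun x x' hxx => ?_⟩
  obtain ⟨c, hcc⟩ := h x' (Set.mem_univ _)
  have h1 : f x = c := hcc (Metric.mem_ball.2 hxx)
  have h2 : f x' = c := hcc (Metric.mem_ball_self hδ)
  rw [h1, h2]

theorem t_FIN : S_PS → S_CH → S_STN → S_MKV → S_IN2 → S_NEQ →
    ∃ (S : Type) (_ : MetricSpace S) (_ : CompactSpace S) (_ : MeasurableSpace S)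
      (_ : BorelSpace S) (Ω : Type) (_ : MeasurableSpace Ω) (μ : MeasureTheory.Measure Ω)
      (X : ℤ → Ω → S) (k : ℤ) (ε : ℝ),
      MeasureTheory.IsProbabilityMeasure μ ∧
      (∀ i, Measurable (X i)) ∧
      (∀ n : ℤ, μ.map (fun ω (i : ℤ) => X (i + n) ω) = μ.map (fun ω (i : ℤ) => X i ω)) ∧
      (∀ (n : ℤ) (A : Set S), MeasurableSet A →
        MeasureTheory.condExp (⨆ (m : ℤ) (_ : m ≤ n), MeasurableSpace.comap (X m) inferInstance) μ
          (Set.indicator (X (n + 1) ⁻¹' A) (fun _ => (1 : ℝ)))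
        =ᵐ[μ] MeasureTheory.condExp (MeasurableSpace.comap (X n) inferInstance) μ
          (Set.indicator (X (n + 1) ⁻¹' A) (fun _ => (1 : ℝ)))) ∧
      0 < k ∧ 0 < ε ∧
      ProbabilityTheory.IndepFun (X 0) (X k) μ ∧
      ∀ᵐ ω ∂μ, ε ≤ dist (X 0 ω) (X 1 ω) := by
  intro hps hch hstn hmkv hin hneq
  obtain ⟨μ, hμ⟩ := hch hps
  have hop : ∀ c : C, IsOpen {x : S0 | x.1 = c} := fun c =>
    (isOpen_discrete {c}).preimage continuous_fst
  obtain ⟨ε, hε, hd⟩ := @same_colour S0 (TopologicalSpace.metrizableSpaceMetric S0)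
    (inferInstance : CompactSpace S0) (fun x => x.1) hop
  refine ⟨S0, TopologicalSpace.metrizableSpaceMetric S0, (inferInstance : CompactSpace S0),
    inferInstance, (inferInstance : BorelSpace S0), ℤ → S0, inferInstance, μ,
    fun i ω => ω i, 2, ε, hμ.1, fun i => measurable_pi_apply i, fun n => hstn μ hμ n,
    fun n A hA => hmkv hps μ hμ n A hA, by norm_num, hε, hin hps μ hμ, ?_⟩
  filter_upwards [hneq hps μ hμ] with ω hω
  by_contra hlt
  exact hω (hd _ _ (not_le.1 hlt))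

end Pool.Agent.Y418.MK.Fin
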