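import Mathlib
import Pool.Agent.Y755.MK.Stm

/-!
# Project MK, IN2 and NEQ: independence at lag two, colours of consecutive states
(problem 65c995)
-/

set_option autoImplicit false
set_option linter.unusedVariables false

open MeasureTheory ProbabilityTheory

namespace Pool.Agent.Y418.MK.In2

open Pool.Agent.Y755.MK

/-- the marginal law -/
theorem marg {μ : Measure (ℤ → S0)} (hps : S_PS) (hμ : Law μ) (s : ℤ) {A : Set S0}
    (hA : MeasurableSet A) : μ.real {ω | ω s ∈ A} = mS.real A := by
  have := hps.1
  have h := hμ.2 s A [] hA (fun B hB => by simp at hB)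
  have e : {ω : ℤ → S0 | ω s ∈ A ∧ ∀ i : Fin ([] : List (Set S0)).length,
      ω (s + 1 + (i : ℕ)) ∈ ([] : List (Set S0)).get i} = {ω | ω s ∈ A} := by
    ext ω
    constructor
    · intro h
      exact h.1
    · intro h
      exact ⟨h, fun i => i.elim0⟩
  rw [e] at h
  rw [h]
  simp [Gl]

/-- the integral over the second state -/
theorem inner (hps : S_PS) {B : Set S0} (hB : MeasurableSet B) (x : S0) :
    Gl [Set.univ, B] x = mS.real B := by
  have hpr := hps.1
  obtain ⟨_, hm, hb, _, _, h2, _⟩ := hps
  have e1 : Gl [Set.univ, B] x = ∫ x', (∫ x'' in B, ps x x' * ps x' x'' ∂mS) ∂mS := by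
    simp only [Gl, Measure.restrict_univ, mul_one]
    refine integral_congr_ae (Filter.Eventually.of_forall fun x' => ?_)
    simp only
    rw [integral_const_mul]
  rw [e1, integral_integral_swap]
  · simp only [h2]
    simp
  · have hm2 : Measurable (Function.uncurry fun x' x'' : S0 => ps x x' * ps x' x'') := by
      have a1 : Measurable fun q : S0 × S0 => ps x q.1 :=
        hm.comp (measurable_const.prodMk measurable_fst)
      have a2 : Measurable fun q : S0 × S0 => ps q.1 q.2 := hm
      exact a1.mul a2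
    refine Integrable.of_bound hm2.aestronglyMeasurable 9 (Filter.Eventually.of_forall ?_)
    rintro ⟨x', x''⟩
    obtain ⟨b1, b2⟩ := hb x x'
    obtain ⟨c1, c2⟩ := hb x' x''
    simp only [Function.uncurry_apply_pair, Real.norm_eq_abs]
    rw [abs_of_nonneg (mul_nonneg b1 c1)]
    nlinarith

theorem t_IN2 : S_IN2 := by
  intro hps μ hμ
  have hpr := hμ.1
  have hprS := hps.1
  rw [indepFun_iff_measure_inter_preimage_eq_mul]
  intro A B hA hB
  have h := hμ.2 0 A [Set.univ, B] hA (fun D hD => by
    simp only [List.mem_cons, List.not_mem_nil, or_false] at hD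
    rcases hD with rfl | rfl
    · exact MeasurableSet.univ
    · exact hB)
  have e : {ω : ℤ → S0 | ω 0 ∈ A ∧ ∀ i : Fin ([Set.univ, B] : List (Set S0)).length,
      ω (0 + 1 + (i : ℕ)) ∈ ([Set.univ, B] : List (Set S0)).get i} =
      (fun ω : ℤ → S0 => ω 0) ⁻¹' A ∩ (fun ω : ℤ → S0 => ω 2) ⁻¹' B := by
    ext ω
    constructor
    · rintro ⟨h1, h2⟩
      refine ⟨h1, ?_⟩
      have h3 := h2 ⟨1, by simp⟩
      simpa using h3
    · rintro ⟨h1, h2⟩
      refine ⟨h1, fun i => ?_⟩
      have hi := i.2
      simp only [List.length_cons, List.length_nil] at hi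
      obtain ⟨i, hi'⟩ := i
      interval_cases i
      · exact Set.mem_univ _
      · simpa using h2
  rw [e] at h
  have h3 : ∫ x in A, Gl [Set.univ, B] x ∂mS = mS.real A * mS.real B := by
    simp only [inner hps hB]
    rw [setIntegral_const, smul_eq_mul]
  rw [h3, ← marg hps hμ 0 hA, ← marg hps hμ 2 hB] at h
  simp only [measureReal_def] at h
  rw [← ENNReal.toReal_mul, ENNReal.toReal_eq_toReal_iff' (measure_ne_top _ _)
    (ENNReal.mul_ne_top (measure_ne_top _ _) (measure_ne_top _ _))] at h
  exact h

theorem t_NEQ : S_NEQ := by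
  intro hps μ hμ
  have hpr := hμ.1
  have hprS := hps.1
  have key : ∀ c : C, ∀ᵐ ω ∂μ, ¬ ((ω 0).1 = c ∧ (ω 1).1 = c) := by
    intro c
    have hA : MeasurableSet {x : S0 | x.1 = c} := measurable_fst (measurableSet_singleton c)
    have h := hμ.2 0 {x : S0 | x.1 = c} [{x : S0 | x.1 = c}] hA (fun D hD => by
      simp only [List.mem_cons, List.not_mem_nil, or_false] at hD
      rw [hD]
      exact hA)
    have h0 : ∫ x in {x : S0 | x.1 = c}, Gl [{x : S0 | x.1 = c}] x ∂mS = 0 := by
      refine (setIntegral_congr_fun hA (g := fun _ => (0 : ℝ)) ?_).trans (by simp)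
      intro x hx
      have hx' : x.1 = c := hx
      simp only [Gl, mul_one]
      refine (setIntegral_congr_fun hA (g := fun _ => (0 : ℝ)) ?_).trans (by simp)
      intro x' hx1
      have hx2 : x'.1 = c := hx1
      exact hps.2.2.2.2.2.2 x x' (hx'.trans hx2.symm)
    rw [h0] at h
    rw [measureReal_eq_zero_iff] at h
    rw [ae_iff]
    refine measure_mono_null ?_ h
    intro ω hω
    have hω' : (ω 0).1 = c ∧ (ω 1).1 = c := not_not.1 hω
    refine ⟨hω'.1, fun i => ?_⟩
    have hi := i.2
    simp only [List.length_cons, List.length_nil] at hi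
    obtain ⟨i, hi'⟩ := i
    interval_cases i
    simpa using hω'.2
  have hall := ae_all_iff.2 key
  filter_upwards [hall] with ω hω heq
  exact hω (ω 1).1 ⟨heq, rfl⟩

end Pool.Agent.Y418.MK.In2
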