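import Mathlib
import Pool.Agent.Y755.MK.Stm

/-!
# Project MK, STN: stationarity (problem 65c995)
-/

set_option autoImplicit false

open MeasureTheory ProbabilityTheory

namespace Pool.Agent.Y418.MK.Stn

open Pool.Agent.Y755.MK

theorem window_real {μ : Measure (ℤ → S0)} (hμ : Law μ) (s : ℤ) (m : ℕ) (B : ℕ → Set S0)
    (hB : ∀ j, MeasurableSet (B j)) :
    μ.real {ω | ∀ j : ℕ, j ≤ m → ω (s + j) ∈ B j} =
      ∫ x in B 0, Gl (List.ofFn fun j : Fin m => B (j + 1)) x ∂mS := by
  rw [← hμ.2 s (B 0) (List.ofFn fun j : Fin m => B (j + 1)) (hB 0) ?_]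
  · congr 1
    ext ω
    constructor
    · intro h
      refine ⟨by simpa using h 0 (Nat.zero_le _), fun i => ?_⟩
      have hi : (i : ℕ) < m := by simpa using i.2
      have h1 := h (i + 1) hi
      simp only [List.get_eq_getElem, List.getElem_ofFn]
      have e : s + ((i : ℕ) + 1 : ℕ) = s + 1 + (i : ℕ) := by push_cast; ring
      rw [e] at h1
      exact h1
    · rintro ⟨h0, h1⟩ j hj
      rcases j with _ | j
      · simpa using h0
      · have h2 := h1 ⟨j, by simpa using hj⟩
        simp only [List.get_eq_getElem, List.getElem_ofFn] at h2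
        have e : s + ((j : ℕ) + 1 : ℕ) = s + 1 + (j : ℕ) := by push_cast; ring
        rw [e]
        exact h2
  · intro C hC
    rw [List.mem_ofFn] at hC
    obtain ⟨j, rfl⟩ := hC
    exact hB _

theorem window {μ : Measure (ℤ → S0)} (hμ : Law μ) (s s' : ℤ) (m : ℕ) (B : ℕ → Set S0)
    (hB : ∀ j, MeasurableSet (B j)) :
    μ {ω | ∀ j : ℕ, j ≤ m → ω (s + j) ∈ B j} = μ {ω | ∀ j : ℕ, j ≤ m → ω (s' + j) ∈ B j} := by
  have := hμ.1
  have h := (window_real hμ s m B hB).trans (window_real hμ s' m B hB).symm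
  exact (measureReal_eq_measureReal_iff).1 h

theorem t_STN : S_STN := by
  intro μ hμ n
  have := hμ.1
  have hsh : Measurable (fun (ω : ℤ → S0) (i : ℤ) => ω (i + n)) :=
    measurable_pi_lambda _ fun i => measurable_pi_apply (i + n)
  have hid : Measurable (fun (ω : ℤ → S0) (i : ℤ) => ω i) :=
    measurable_pi_lambda _ fun i => measurable_pi_apply i
  have : IsProbabilityMeasure (μ.map fun (ω : ℤ → S0) (i : ℤ) => ω (i + n)) :=
    Measure.isProbabilityMeasure_map hsh.aemeasurable
  have : IsProbabilityMeasure (μ.map fun (ω : ℤ → S0) (i : ℤ) => ω i) :=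
    Measure.isProbabilityMeasure_map hid.aemeasurable
  refine ext_of_generate_finite
    (squareCylinders fun _ : ℤ => {s : Set S0 | MeasurableSet s})
    (generateFrom_squareCylinders (α := fun _ : ℤ => S0)).symm
    (isPiSystem_squareCylinders (fun _ => MeasurableSpace.isPiSystem_measurableSet)
      fun _ => by simp) ?_ (by simp)
  intro S hS
  obtain ⟨s, t, ht, hSe⟩ : ∃ (s : Finset ℤ) (t : ℤ → Set S0),
      (t ∈ Set.univ.pi fun _ => {s : Set S0 | MeasurableSet s}) ∧ (s : Set ℤ).pi t = S := by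
    obtain ⟨s, t, ht, h⟩ := hS
    exact ⟨s, t, ht, h.symm⟩
  subst hSe
  have ht' : ∀ i : ℤ, MeasurableSet (t i) := fun i => ht i (Set.mem_univ i)
  classical
  have hpm : MeasurableSet ((s : Set ℤ).pi t) :=
    MeasurableSet.pi s.countable_toSet fun i _ => ht' i
  rw [Measure.map_apply hsh hpm, Measure.map_apply hid hpm]
  obtain ⟨N, hN⟩ : ∃ N : ℕ, ∀ i ∈ s, -(N : ℤ) ≤ i ∧ i ≤ N := by
    refine ⟨s.sup fun i => i.natAbs, fun i hi => ?_⟩
    have h1 : i.natAbs ≤ s.sup fun i => i.natAbs := Finset.le_sup (f := fun i : ℤ => i.natAbs) hi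
    omega
  let B : ℕ → Set S0 := fun j => if -(N : ℤ) + j ∈ s then t (-(N : ℤ) + j) else Set.univ
  have hB : ∀ j, MeasurableSet (B j) := fun j => by
    simp only [B]
    split_ifs
    · exact ht' _
    · exact MeasurableSet.univ
  have h1 : ∀ k : ℤ, (fun (ω : ℤ → S0) (i : ℤ) => ω (i + k)) ⁻¹' ((s : Set ℤ).pi t) =
      {ω | ∀ j : ℕ, j ≤ 2 * N → ω (-(N : ℤ) + k + j) ∈ B j} := by
    intro k
    ext ω
    constructor
    · intro h j _
      simp only [B]
      split_ifs with hj
      · have h2 := h (-(N : ℤ) + j) hj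
        simp only at h2
        have e : -(N : ℤ) + k + j = -(N : ℤ) + j + k := by ring
        rw [e]
        exact h2
      · exact Set.mem_univ _
    · intro h i hi
      obtain ⟨h2, h3⟩ := hN i hi
      have h4 := h (i + N).toNat (by omega)
      have e : ((i + N).toNat : ℤ) = i + N := Int.toNat_of_nonneg (by omega)
      simp only [B, e] at h4
      have e2 : -(N : ℤ) + (i + N) = i := by ring
      have e3 : -(N : ℤ) + k + (i + N) = i + k := by ring
      rw [e2, e3, if_pos (Finset.mem_coe.1 hi)] at h4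
      exact h4
  have h0 := h1 0
  simp only [add_zero] at h0
  rw [h1 n, h0]
  have := window hμ (-(N : ℤ) + n) (-(N : ℤ)) (2 * N) B hB
  exact this

end Pool.Agent.Y418.MK.Stn
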